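import Pool.Agent.EGF.StmtsS

set_option autoImplicit false

/-!
# Row CEL of squad EGF (problem MP_1090a0_co)

One cell: the number of pairs of a saturated set in a rectangle with an empty sub-rectangle.
-/

namespace Pool.Agent.EGF.H64

open Finset Pool.Agent.EGF

theorem cel : CelStmt := by
  intro X Y _ _ A W W1 B Z Z1 F M ι T0 hι hM hWA hZB hW hZ hTW hTZ hS hF
  have hw0 : (0 : ℝ) ≤ W.card := Nat.cast_nonneg _
  have hz0 : (0 : ℝ) ≤ Z.card := Nat.cast_nonneg _
  have rect : ∀ P ⊆ W, ∀ Q ⊆ Z, (((P ×ˢ Q) ∩ F).card : ℝ) ≤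
      (M + ι) * (P.card * Q.card) + ι * (W.card * Z.card) := by
    intro P hP Q hQ
    have hp0 : (0 : ℝ) ≤ P.card := Nat.cast_nonneg _
    have hq0 : (0 : ℝ) ≤ Q.card := Nat.cast_nonneg _
    have hp1 : (P.card : ℝ) ≤ W.card := by exact_mod_cast card_le_card hP
    have hq1 : (Q.card : ℝ) ≤ Z.card := by exact_mod_cast card_le_card hQ
    have h0 : 0 ≤ (M + ι) * ((P.card : ℝ) * Q.card) := by positivity
    have h0' : 0 ≤ ι * ((W.card : ℝ) * Z.card) := by positivity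
    have h1 : (((P ×ˢ Q) ∩ F).card : ℝ) ≤ (P.card : ℝ) * Q.card := by
      rw [← Nat.cast_mul, ← card_product]
      exact_mod_cast card_le_card inter_subset_left
    by_cases hPT : T0 ≤ (P.card : ℝ)
    · by_cases hQT : T0 ≤ (Q.card : ℝ)
      · have h2 := hS P (hP.trans hWA) Q (hQ.trans hZB) hPT hQT
        linarith
      · push Not at hQT
        have h2 : (P.card : ℝ) * Q.card ≤ W.card * (ι * Z.card) :=
          mul_le_mul hp1 (hQT.le.trans hTZ) hq0 hw0
        have h3 : (W.card : ℝ) * (ι * Z.card) = ι * (W.card * Z.card) := by ring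
        linarith
    · push Not at hPT
      have h2 : (P.card : ℝ) * Q.card ≤ (ι * W.card) * Z.card :=
        mul_le_mul (hPT.le.trans hTW) hq1 hq0 (by positivity)
      have h3 : (ι * (W.card : ℝ)) * Z.card = ι * (W.card * Z.card) := by ring
      linarith
  have hsub : (W ×ˢ Z) ∩ F ⊆ ((W1 ×ˢ (Z \ Z1)) ∩ F) ∪ (((W \ W1) ×ˢ Z1) ∩ F) ∪
      (((W \ W1) ×ˢ (Z \ Z1)) ∩ F) := by
    rintro ⟨w, z⟩ hwz
    simp only [mem_inter, mem_product, mem_union, mem_sdiff] at hwz ⊢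
    obtain ⟨⟨h1, h2⟩, h3⟩ := hwz
    by_cases hw : w ∈ W1
    · by_cases hz : z ∈ Z1
      · exact absurd h3 (hF w hw z hz)
      · tauto
    · by_cases hz : z ∈ Z1 <;> tauto
  have hc : ((W ×ˢ Z) ∩ F).card ≤ ((W1 ×ˢ (Z \ Z1)) ∩ F).card + (((W \ W1) ×ˢ Z1) ∩ F).card +
      (((W \ W1) ×ˢ (Z \ Z1)) ∩ F).card := by
    refine (card_le_card hsub).trans ((card_union_le _ _).trans ?_)
    exact Nat.add_le_add_right (card_union_le _ _) _
  have hc' : (((W ×ˢ Z) ∩ F).card : ℝ) ≤ (((W1 ×ˢ (Z \ Z1)) ∩ F).card : ℝ) +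
      ((((W \ W1) ×ˢ Z1) ∩ F).card : ℝ) + ((((W \ W1) ×ˢ (Z \ Z1)) ∩ F).card : ℝ) := by
    exact_mod_cast hc
  have r1 := rect W1 hW (Z \ Z1) sdiff_subset
  have r2 := rect (W \ W1) sdiff_subset Z1 hZ
  have r3 := rect (W \ W1) sdiff_subset (Z \ Z1) sdiff_subset
  have cw : ((W \ W1).card : ℝ) = W.card - W1.card := by
    have h := card_sdiff_add_card_eq_card hW
    have h' : ((W \ W1).card : ℝ) + W1.card = W.card := by exact_mod_cast h
    linarith
  have cz : ((Z \ Z1).card : ℝ) = Z.card - Z1.card := by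
    have h := card_sdiff_add_card_eq_card hZ
    have h' : ((Z \ Z1).card : ℝ) + Z1.card = Z.card := by exact_mod_cast h
    linarith
  rw [cw, cz] at r3
  rw [cz] at r1
  rw [cw] at r2
  have hfin : (M + ι) * ((W1.card : ℝ) * (Z.card - Z1.card)) + ι * (W.card * Z.card) +
      ((M + ι) * (((W.card : ℝ) - W1.card) * Z1.card) + ι * (W.card * Z.card)) +
      ((M + ι) * (((W.card : ℝ) - W1.card) * (Z.card - Z1.card)) + ι * (W.card * Z.card)) =
      (M + ι) * (W.card * Z.card - W1.card * Z1.card) + 3 * ι * (W.card * Z.card) := by ring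
  linarith

end Pool.Agent.EGF.H64
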